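import Pool.Graph.R_seed8.R542.SR.Mem

/-!
# Star colouring of `(2k - 4)`-regular graphs whose edges decompose into triangles

For every `k ≥ 5`, star colourability with `k` colours is NP-complete on the `K_{1,k-1}`-free
`(2k - 4)`-regular graphs whose edge set is a disjoint union of edge sets of triangles.
-/

set_option autoImplicit false

namespace Pool.Agent.Results.MP_b4e77d_lc.TriangleDecomposable

open Pool.Agent.NPC Pool.Agent.H692R2 Pool.Agent.H673R2 Pool.Agent.NPC.R542.SR
  Pool.Agent.NPC.R542.Cay

/-- The edges of the graph are partitioned into triangles. -/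
def TriDec (G : FinGraph) : Prop :=
  ∃ T : Set (Finset (Fin G.n)), (∀ t ∈ T, G.graph.IsNClique 3 t) ∧
    ∀ u v, G.graph.Adj u v → ∃! t, t ∈ T ∧ u ∈ t ∧ v ∈ t

theorem decomp {F P : Type} (X : Flags F P) {n : ℕ} (G : SimpleGraph (Fin n))
    (e : G ≃g X.graph) : ∃ T : Set (Finset (Fin n)), (∀ t ∈ T, G.IsNClique 3 t) ∧
    ∀ u v, G.Adj u v → ∃! t, t ∈ T ∧ u ∈ t ∧ v ∈ t := by
  classical
  let q : F → Fin n := fun f => e.symm (X.pt f)
  have hq : ∀ f g, q f = q g → X.pt f = X.pt g := fun f g h => e.symm.injective h
  have hadj : ∀ f, G.Adj (q f) (q (X.rot f)) := fun f =>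
    (e.symm.map_adj_iff).2 ⟨f, rfl, Or.inl rfl⟩
  let tri : F → Finset (Fin n) := fun f => {q f, q (X.rot f), q (X.rot (X.rot f))}
  have htri : ∀ f, tri (X.rot f) = tri f := by
    intro f
    ext x
    simp only [tri, X.rot3, Finset.mem_insert, Finset.mem_singleton]
    tauto
  refine ⟨Set.range tri, ?_, ?_⟩
  · rintro _ ⟨f, rfl⟩
    refine SimpleGraph.is3Clique_triple_iff.2 ⟨hadj f, ?_, hadj _⟩
    have := (hadj (X.rot (X.rot f))).symm
    rwa [X.rot3] at this
  · intro u v huv
    obtain ⟨f, hf, hfv⟩ := (e.map_adj_iff (v := u) (w := v)).2 huv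
    have hu : q f = u := by
      simp only [q, hf]
      exact e.symm_apply_apply u
    have hv : q (X.rot f) = v ∨ q (X.rot (X.rot f)) = v := by
      rcases hfv with h | h
      · left
        simp only [q, h]
        exact e.symm_apply_apply v
      · right
        simp only [q, h]
        exact e.symm_apply_apply v
    refine ⟨tri f, ⟨⟨f, rfl⟩, by simp [tri, hu], ?_⟩, ?_⟩
    · rcases hv with h | h <;> simp [tri, h]
    · rintro _ ⟨⟨g, rfl⟩, hgu, hgv⟩
      have main : ∀ g, q g = u → v ∈ tri g → tri g = tri f := by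
        intro g hg hgv
        have h1 : X.pt f = X.pt g := hq _ _ (hu.trans hg.symm)
        have h2 : q (X.rot g) = v ∨ q (X.rot (X.rot g)) = v := by
          simp only [tri, Finset.mem_insert, Finset.mem_singleton] at hgv
          rcases hgv with h | h | h
          · exact absurd (hg.symm.trans h.symm) huv.ne
          · exact Or.inl h.symm
          · exact Or.inr h.symm
        have h3 : f = g := by
          rcases hv with h | h <;> rcases h2 with h' | h'
          · exact X.lin f g h1 (Or.inl (hq _ _ (h.trans h'.symm)))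
          · exact X.lin f g h1 (Or.inr (Or.inl (hq _ _ (h.trans h'.symm))))
          · exact (X.lin g f h1.symm (Or.inr (Or.inl (hq _ _ (h'.trans h.symm))))).symm
          · exact X.lin f g h1 (Or.inr (Or.inr (hq _ _ (h.trans h'.symm))))
        rw [h3]
      have h4 := hgu
      simp only [tri, Finset.mem_insert, Finset.mem_singleton] at h4
      rcases h4 with h | h | h
      · exact main g h.symm hgv
      · rw [← htri g] at hgv ⊢
        exact main _ h.symm hgv
      · rw [← htri g, ← htri (X.rot g)] at hgv ⊢
        exact main _ h.symm hgv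

/-- **For every `k ≥ 5`, star colourability with `k` colours is NP-complete on the
`K_{1,k-1}`-free `(2k - 4)`-regular graphs whose edges are partitioned into triangles.** -/
theorem result (k : ℕ) (hk : 5 ≤ k) :
    InNPP (StarColourable k) ∧
    NPHardOn (fun G : FinGraph => Regular (2 * k - 4) G ∧ NoStar (k - 1) G ∧ TriDec G)
      (StarColourable k) := by
  refine ⟨inNP k (by omega), ?_⟩
  obtain ⟨p, rfl⟩ : ∃ p, k = p + 2 := ⟨k - 2, by omega⟩
  have e : 2 * (p + 2) - 4 = 2 * p := by omega
  have e' : p + 2 - 1 = p + 1 := by omega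
  rw [e, e']
  have hp : 3 ≤ p := by omega
  exact npHardOn_of (hardPr_small p hp) (poly_gr (p + 2))
    (fun _ h => ⟨regular (by omega) (okE_of_small h), starFree (by omega) (okE_of_small h),
      decomp _ _ (iso (by omega) (okE_of_small h))⟩)
    (fun _ h => correct hp (okE_of_small h))

end Pool.Agent.Results.MP_b4e77d_lc.TriangleDecomposable
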